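import Pool.Agent.R650.SpInv

/-!
# MP_8dad81_al: five involutions suffice in the compact symplectic group

For every `n ≥ 2`, every element of `Sp(n)` is a product of five involutions of `Sp(n)`; for even
`n` four involutions suffice.

The group `Sp(n)` is defined in `Pool/Agent/R650/SpInvDefs.lean`, as in the problem: the unitary
complex `2n × 2n` matrices `A` with `Aᵗ J A = J`, where `J = [[0, I], [-I, 0]]`.

The proof: diagonalise `A` in `Sp(n)`, with eigenvalues `λ_k` and their conjugates.  If `n` is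
even, pair the indices; for a pair `k, k'` write `λ_k = μ ν`, `λ_{k'} = μ ν̄`; then
`diag(μ, μ)` and `diag(ν, ν̄)` are products of two involutions in `Sp(2)`.  If `n` is odd, there is
a unit vector `x` with `⟨x, Ax⟩` real (in the quaternionic sense), and a reflection `B` with
`B A x = x`; then `B A` is a product of four involutions.
-/

set_option autoImplicit false

namespace Pool.Agent.Results.MP_8dad81_al.FiveInvolutions

open Pool.Agent.R650.SpInv (Sp)

/-- Every element of `Sp(n)`, `n ≥ 2`, is a product of five involutions, and for even `n` a product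
of four involutions. -/
theorem result :
    (∀ n : ℕ, 2 ≤ n → ∀ A ∈ Sp n,
      ∃ B : Fin 5 → Matrix (Fin n ⊕ Fin n) (Fin n ⊕ Fin n) ℂ,
        (∀ i, B i ∈ Sp n ∧ B i * B i = 1) ∧ A = B 0 * B 1 * B 2 * B 3 * B 4) ∧
    (∀ n : ℕ, Even n → ∀ A ∈ Sp n,
      ∃ B : Fin 4 → Matrix (Fin n ⊕ Fin n) (Fin n ⊕ Fin n) ℂ,
        (∀ i, B i ∈ Sp n ∧ B i * B i = 1) ∧ A = B 0 * B 1 * B 2 * B 3) := by
  refine ⟨fun n hn A hA => ?_, fun n hn A hA => ?_⟩
  · obtain ⟨B₀, B₁, B₂, B₃, B₄, h0, h1, h2, h3, h4, h⟩ := Pool.Agent.R650.SpInv.five hA hn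
    refine ⟨![B₀, B₁, B₂, B₃, B₄], fun i => ?_, h⟩
    fin_cases i
    · exact h0
    · exact h1
    · exact h2
    · exact h3
    · exact h4
  · obtain ⟨B₁, B₂, B₃, B₄, h1, h2, h3, h4, h⟩ := Pool.Agent.R650.SpInv.four hA hn
    refine ⟨![B₁, B₂, B₃, B₄], fun i => ?_, h⟩
    fin_cases i
    · exact h1
    · exact h2
    · exact h3
    · exact h4

end Pool.Agent.Results.MP_8dad81_al.FiveInvolutions
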